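import Pool.Agent.DFM.Stmts

/-! Squad DFM, row CIN: the coinitiality of the lattice `L(I,J,w)` is `#I`. -/

set_option autoImplicit false

namespace Pool.Agent.DFM.H8

open Pool.Agent.DFM

/-- the finite set of a lower element -/
def part {I J : Type} : El I J → Finset I
  | El.low G => G
  | El.mid => ∅
  | El.top _ => ∅
  | El.ch _ _ _ => ∅

theorem part_mem {I J : Type} (t : El I J) (i : I) (h : le t (El.low {i})) : i ∈ part t := by
  cases t with
  | low G => exact h (Finset.mem_singleton_self i)
  | mid => exact absurd h (by simp [le])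
  | top F => exact absurd h (by simp [le])
  | ch a b n => exact absurd h (by simp [le])

theorem lower {I J : Type} (w : I → J → ℕ) [Infinite I] (T : Set (El I J))
    (hT : ∀ x : El I J, Ok w x → ∃ t ∈ T, le t x) : Cardinal.mk I ≤ Cardinal.mk T := by
  have hU : (⋃ t : T, (part (t : El I J) : Set I)) = Set.univ := by
    apply Set.eq_univ_of_forall
    intro i
    obtain ⟨t, ht, hle⟩ := hT (El.low {i}) (Finset.singleton_nonempty i)
    exact Set.mem_iUnion.2 ⟨⟨t, ht⟩, part_mem t i hle⟩
  have hinf : Infinite T := by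
    by_contra hn
    have hfin : Finite T := not_infinite_iff_finite.1 hn
    have h1 : (⋃ t : T, (part (t : El I J) : Set I)).Finite :=
      Set.finite_iUnion (fun t => (part (t : El I J)).finite_toSet)
    rw [hU] at h1
    exact Set.infinite_univ h1
  have ha : Cardinal.aleph0 ≤ Cardinal.mk T := Cardinal.aleph0_le_mk T
  calc Cardinal.mk I = Cardinal.mk (Set.univ : Set I) := Cardinal.mk_univ.symm
    _ = Cardinal.mk (⋃ t : T, (part (t : El I J) : Set I)) := by rw [hU]
    _ ≤ Cardinal.mk T * ⨆ t : T, Cardinal.mk (part (t : El I J) : Set I) :=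
        Cardinal.mk_iUnion_le _
    _ ≤ Cardinal.mk T * Cardinal.aleph0 := by
        refine mul_le_mul' le_rfl ?_
        apply ciSup_le'
        intro t
        exact (Cardinal.lt_aleph0_of_finite _).le
    _ = Cardinal.mk T := Cardinal.mul_aleph0_eq ha

theorem cin : CinStmt := by
  intro I J w _ _
  refine ⟨?_, fun T _ hT => lower w T hT⟩
  obtain ⟨i0⟩ : Nonempty I := inferInstance
  refine ⟨{t | ∃ G : Finset I, G.Nonempty ∧ t = El.low G}, ?_, ?_, ?_⟩
  · rintro t ⟨G, hG, rfl⟩
    exact hG
  · intro x hx
    cases x with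
    | low G => exact ⟨El.low G, ⟨G, hx, rfl⟩, Finset.Subset.refl G⟩
    | mid => exact ⟨El.low {i0}, ⟨{i0}, Finset.singleton_nonempty i0, rfl⟩, trivial⟩
    | top F => exact ⟨El.low {i0}, ⟨{i0}, Finset.singleton_nonempty i0, rfl⟩, trivial⟩
    | ch a b n => exact ⟨El.low {a}, ⟨{a}, Finset.singleton_nonempty a, rfl⟩,
        Finset.mem_singleton_self a⟩
  · apply le_antisymm
    · calc Cardinal.mk {t : El I J | ∃ G : Finset I, G.Nonempty ∧ t = El.low G}
          ≤ Cardinal.mk (Set.range (fun G : Finset I => (El.low G : El I J))) := by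
            apply Cardinal.mk_le_mk_of_subset
            rintro t ⟨G, _, rfl⟩
            exact ⟨G, rfl⟩
        _ ≤ Cardinal.mk (Finset I) := Cardinal.mk_range_le
        _ = Cardinal.mk I := Cardinal.mk_finset_of_infinite I
    · apply lower w
      intro x hx
      cases x with
      | low G => exact ⟨El.low G, ⟨G, hx, rfl⟩, Finset.Subset.refl G⟩
      | mid => exact ⟨El.low {i0}, ⟨{i0}, Finset.singleton_nonempty i0, rfl⟩, trivial⟩
      | top F => exact ⟨El.low {i0}, ⟨{i0}, Finset.singleton_nonempty i0, rfl⟩, trivial⟩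
      | ch a b n => exact ⟨El.low {a}, ⟨{a}, Finset.singleton_nonempty a, rfl⟩,
          Finset.mem_singleton_self a⟩

end Pool.Agent.DFM.H8

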